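import Mathlib

/-!
# MP_9df12e_lc, Q1 (affirmative): every `S_1(Γ_1, Γ)`-space of reals is perfectly meager
-/

open Set Filter Topology

namespace Pool.Agent.Results.MP_9df12e_lc.PerfectlyMeager

/-- A `Γ_h`-sequence for `X`: open subsets `V n m` of the subspace `X` such that every point of
`X` is missing from at most `h n` sets of the row `n`. -/
def GammaSeq (h : ℕ → ℕ) (X : Set ℝ) (V : ℕ → ℕ → Set X) : Prop :=
  (∀ n m, IsOpen (V n m)) ∧ ∀ (x : X) (n : ℕ), {m | x ∉ V n m}.encard ≤ h n

/-- `S_1(Γ_1, Γ)`: from every `Γ_1`-sequence one can choose one member of each row such that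
every point belongs to all but finitely many of the chosen sets. -/
def S1Gamma1Gamma (X : Set ℝ) : Prop :=
  ∀ V : ℕ → ℕ → Set X, GammaSeq (fun _ => 1) X V →
    ∃ d : ℕ → ℕ, ∀ x : X, ∀ᶠ n in atTop, x ∈ V n (d n)

/-- Perfectly meager sets of reals (`Perfect` is Mathlib's: closed without isolated points). -/
def PerfMeager (X : Set ℝ) : Prop :=
  ∀ P : Set ℝ, Perfect P → P.Nonempty → IsMeagre {p : P | (p : ℝ) ∈ X}

/-- in a nonempty open subset of a perfect set there are infinitely many pairwise disjoint closed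
sets with nonempty interior. -/
theorem exists_disjoint_closed {P : Set ℝ} (hP : Perfect P) {U : Set P} (hU : IsOpen U)
    (hne : U.Nonempty) :
    ∃ C : ℕ → Set P, (∀ m, IsClosed (C m)) ∧ (∀ m, (interior (C m) ∩ U).Nonempty) ∧
      Pairwise (fun m m' => Disjoint (C m) (C m')) := by
  have hinf : U.Infinite := by
    obtain ⟨p, hp⟩ := hne
    have hacc : AccPt (p : ℝ) (𝓟 P) := hP.acc _ p.2
    have hneb : (𝓝[≠] p).NeBot := by
      rw [accPt_iff_frequently] at hacc
      rw [← mem_closure_iff_nhdsWithin_neBot, mem_closure_iff_frequently, nhds_subtype_eq_comap,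
        frequently_comap]
      refine hacc.mono ?_
      rintro y ⟨hy, hyP⟩
      refine ⟨⟨y, hyP⟩, rfl, ?_⟩
      intro h
      exact hy (congrArg Subtype.val h)
    exact infinite_of_mem_nhds p (hU.mem_nhds hp)
  have : Infinite U := hinf.to_subtype
  obtain ⟨O, hO1, hO2, hO3⟩ := exists_seq_infinite_isOpen_pairwise_disjoint U
  have key : ∀ m, ∃ C : Set P, IsClosed C ∧ C ⊆ (fun y : U => (y : P)) '' (O m) ∧
      (interior C ∩ U).Nonempty := by
    intro m
    obtain ⟨y, hy⟩ := (hO1 m).nonempty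
    have hopen : IsOpen ((fun y : U => (y : P)) '' (O m)) :=
      hU.isOpenMap_subtype_val _ (hO2 m)
    obtain ⟨r, hr, hsub⟩ := Metric.isOpen_iff.1 hopen (y : P) ⟨y, hy, rfl⟩
    refine ⟨Metric.closedBall (y : P) (r / 2), Metric.isClosed_closedBall, ?_, ?_⟩
    · exact (Metric.closedBall_subset_ball (by linarith)).trans hsub
    · refine ⟨y, ?_, y.2⟩
      exact mem_interior.2 ⟨Metric.ball (y : P) (r / 2), Metric.ball_subset_closedBall,
        Metric.isOpen_ball, Metric.mem_ball_self (by linarith)⟩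
  choose C hC1 hC2 hC3 using key
  refine ⟨C, hC1, hC3, ?_⟩
  intro m m' hmm
  rw [Set.disjoint_left]
  intro p hp hp'
  obtain ⟨y, hy, rfl⟩ := hC2 m hp
  obtain ⟨y', hy', h'⟩ := hC2 m' hp'
  have : y' = y := Subtype.ext h'
  subst this
  exact Set.disjoint_left.1 (hO3 hmm) hy hy'

/-- **Q1.** Every `S_1(Γ_1, Γ)`-space of reals is perfectly meager. -/
theorem result (X : Set ℝ) (hX : S1Gamma1Gamma X) : PerfMeager X := by
  classical
  intro P hP hPne
  have hPne' : Nonempty P := hPne.to_subtype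
  -- a countable base of nonempty open sets
  have hbne : (TopologicalSpace.countableBasis P).Nonempty := by
    by_contra h
    rw [Set.not_nonempty_iff_eq_empty] at h
    have := (TopologicalSpace.isBasis_countableBasis P).sUnion_eq
    rw [h, Set.sUnion_empty] at this
    exact Set.empty_ne_univ this
  obtain ⟨u, hu⟩ := (TopologicalSpace.countable_countableBasis P).exists_eq_range hbne
  have huo : ∀ j, IsOpen (u j) := fun j =>
    TopologicalSpace.isOpen_of_mem_countableBasis (hu ▸ Set.mem_range_self j)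
  have hun : ∀ j, (u j).Nonempty := fun j =>
    TopologicalSpace.nonempty_of_mem_countableBasis (hu ▸ Set.mem_range_self j)
  have hub : ∀ (O : Set P), IsOpen O → O.Nonempty → ∃ j, u j ⊆ O := by
    rintro O hO ⟨p, hp⟩
    obtain ⟨v, hv, -, hvO⟩ :=
      (TopologicalSpace.isBasis_countableBasis P).exists_subset_of_mem_open hp hO
    rw [hu] at hv
    obtain ⟨j, rfl⟩ := hv
    exact ⟨j, hvO⟩
  choose C hC1 hC2 hC3 using fun n : ℕ =>
    exists_disjoint_closed hP (huo (Nat.unpair n).1) (hun (Nat.unpair n).1)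
  -- the sets removed from `X`
  let K : ℕ → ℕ → Set ℝ := fun n m => Subtype.val '' (C n m)
  have hK : ∀ n m, IsClosed (K n m) := fun n m =>
    hP.closed.isClosedMap_subtype_val _ (hC1 n m)
  let V : ℕ → ℕ → Set X := fun n m => {x | (x : ℝ) ∉ K n m}
  have hV : GammaSeq (fun _ => 1) X V := by
    refine ⟨fun n m => ?_, fun x n => ?_⟩
    · exact (hK n m).isOpen_compl.preimage continuous_subtype_val
    · have hsub : ({m | x ∉ V n m} : Set ℕ).Subsingleton := by
        intro m hm m' hm'
        have h1 : (x : ℝ) ∈ K n m := not_not.1 hm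
        have h2 : (x : ℝ) ∈ K n m' := not_not.1 hm'
        obtain ⟨p, hp, hpx⟩ := h1
        obtain ⟨p', hp', hpx'⟩ := h2
        have : p' = p := Subtype.ext (hpx'.trans hpx.symm)
        subst this
        by_contra hne
        exact Set.disjoint_left.1 (hC3 n hne) hp hp'
      simpa using Set.encard_le_one_iff_subsingleton.2 hsub
  obtain ⟨d, hd⟩ := hX V hV
  -- the comeager set
  let G : ℕ → Set P := fun k => ⋃ n ≥ k, interior (C n (d n))
  have hG1 : ∀ k, IsOpen (G k) := fun k => isOpen_biUnion fun n _ => isOpen_interior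
  have hG2 : ∀ k, Dense (G k) := by
    intro k
    rw [dense_iff_inter_open]
    intro O hO hOne
    obtain ⟨j, hj⟩ := hub O hO hOne
    have h1 : k ≤ Nat.pair j k := Nat.right_le_pair _ _
    obtain ⟨p, hp1, hp2⟩ := hC2 (Nat.pair j k) (d (Nat.pair j k))
    rw [Nat.unpair_pair] at hp2
    refine ⟨p, hj hp2, ?_⟩
    exact Set.mem_biUnion (show Nat.pair j k ∈ {n | n ≥ k} from h1) hp1
  have hG3 : (⋂ k, G k) ∈ residual P :=
    countable_iInter_mem.2 fun k => residual_of_dense_open (hG1 k) (hG2 k)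
  refine mem_of_superset hG3 ?_
  intro p hp hpX
  have hp' : ∀ k, ∃ n, k ≤ n ∧ p ∈ C n (d n) := by
    intro k
    have := Set.mem_iInter.1 hp k
    simp only [G, Set.mem_iUnion] at this
    obtain ⟨n, hn, hpn⟩ := this
    exact ⟨n, hn, interior_subset hpn⟩
  have hev := hd ⟨p, hpX⟩
  rw [eventually_atTop] at hev
  obtain ⟨k, hk⟩ := hev
  obtain ⟨n, hn, hpn⟩ := hp' k
  exact hk n hn ⟨p, hpn, rfl⟩

end Pool.Agent.Results.MP_9df12e_lc.PerfectlyMeager
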